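import Mathlib
import Pool.Agent.Helper87.TA.Defs
import Pool.Agent.Helper87.TB.Defs

/-!
# Project TC: three points in 3-space, powers of norms: definitions

`tri u v w` is the polarization of the norm `nm 3 w = (lin w 0) (lin w 1) (lin w 2)` (`tri w w w = 6 nm 3 w`).
-/

set_option autoImplicit false

open MvPolynomial Finset

namespace Helper87.TC

open Helper87.TR Helper87.TA Helper87.TB

/-- the polarization of the norm -/
noncomputable def tri (u v w : Fin 3 → ℚ) : MvPolynomial (Fin 3 × Fin 3) ℚ :=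
  lin u 0 * lin v 1 * lin w 2 + lin u 1 * lin v 2 * lin w 0 + lin u 2 * lin v 0 * lin w 1 +
    lin u 0 * lin v 2 * lin w 1 + lin u 2 * lin v 1 * lin w 0 + lin u 1 * lin v 0 * lin w 2

/-- unit vectors -/
def ev (j : Fin 3) : Fin 3 → ℚ := fun i => if i = j then 1 else 0

/-- the set of the products of powers of four norms of total degree `n` -/
def P4 (n : ℕ) : Set (MvPolynomial (Fin 3 × Fin 3) ℚ) :=
  {x | ∃ (w : Fin 4 → Fin 3 → ℚ) (d : Fin 4 → ℕ), ∑ t, d t = n ∧ x = ∏ t, nm 3 (w t) ^ d t}

end Helper87.TC
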