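import Mathlib
import Pool.Agent.Helper87.TC.Defs
import Pool.Agent.Helper87.TC.St.Howe
import Pool.Agent.Helper87.TC.St.Dens
import Pool.Agent.Helper87.TB.St.Main
import Pool.Agent.Helper87.TB.St.TrA2
import Pool.Agent.Helper87.TA.FinalC

/-!
# Project TC: three blocks
-/

set_option autoImplicit false

open Finset MvPolynomial

namespace Helper87.TC

open Helper87.TR Helper87.TA Helper87.TB

theorem P4_le (a c : ℕ) (ha : 1 ≤ a) (hc : 9 ≤ c) : Submodule.span ℚ (P4 (a * c)) ≤ Pa 3 3 a ^ c := by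
  rw [Submodule.span_le]
  rintro x ⟨w, d, hd, rfl⟩
  exact tile 3 3 a (by norm_num) ha w 3 c univ d (by simp) hd (by omega)

theorem T0_mem3 (a c : ℕ) (ha : 1 ≤ a) (hc : 9 ≤ c) : T0 3 (a * c) ∈ Pa 3 3 a ^ c := by
  refine P4_le a c ha hc (dens4 (a * c) (howe (a * c) ?_ ⟨?_, ?_⟩))
  · exact le_trans (by omega) (Nat.le_mul_of_pos_left c ha)
  · exact tbmain_T0_RH 3 (a * c)
  · exact tbmain_T0_Eqs 3 (a * c)

/-- three blocks: `3 | p` or `p ≥ 9` -/
theorem permLe_three (n p q : ℕ) (h : 3 * n = p * q) (hp : 1 ≤ p) (hq : 3 ≤ q) (hd : 3 ∣ p ∨ 9 ≤ p) :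
    PermLe (3 * n) 3 n p q := by
  by_cases h3 : 3 ∣ p
  · obtain ⟨a, rfl⟩ := h3
    have ha : 1 ≤ a := by omega
    have hn : n = a * q := by
      have h1 : 3 * n = 3 * (a * q) := by rw [h]; ring
      omega
    subst hn
    exact permLe_A2 3 a q (by norm_num) ha (by omega) (T0_im a q ha hq)
  · have hp9 : 9 ≤ p := hd.resolve_left h3
    have h4 : 3 ∣ q := by
      have h5 : 3 ∣ p * q := ⟨n, h.symm⟩
      exact ((Nat.Prime.dvd_mul Nat.prime_three).1 h5).resolve_left h3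
    obtain ⟨a, rfl⟩ := h4
    have ha : 1 ≤ a := by omega
    have hn : n = a * p := by
      have h1 : 3 * n = 3 * (a * p) := by rw [h]; ring
      omega
    subst hn
    exact permLe_B 3 a p (by norm_num) ha (by omega) (T0_mem3 a p ha hp9)

end Helper87.TC
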